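import Mathlib
import Pool.Agent.Helper766.M.Main
import Pool.Agent.Helper766.M.L_weyl_lower

set_option autoImplicit false

open MeasureTheory
open scoped ENNReal

namespace Pool.Agent.Results.MP_e22489_mp.MagneticRatio

/-- The magnetic kinetic energy `∫ |(-i∇ + A)u|²`. -/
noncomputable def energy {d : ℕ} (A : (Fin d → ℝ) → (Fin d → ℝ)) (u : (Fin d → ℝ) → ℂ) : ℝ≥0∞ :=
  ∫⁻ x, ∑ j : Fin d,
    ‖-Complex.I * fderiv ℝ u x (Pi.single j 1) + ((A x j : ℝ) : ℂ) * u x‖ₑ ^ 2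

/-- `|E_k|`, the absolute value of the `k`-th negative eigenvalue (counted from `k = 0`, with
multiplicity) of `(-i∇ + A)² + V`, and `0` if there are at most `k` negative eigenvalues, by the
min-max principle on the form core of compactly supported `C¹` functions. -/
noncomputable def absE {d : ℕ} (A : (Fin d → ℝ) → (Fin d → ℝ)) (V : (Fin d → ℝ) → ℝ)
    (k : ℕ) : ℝ≥0∞ :=
  ⨆ (S : Submodule ℂ ((Fin d → ℝ) → ℂ)) (_ : ∀ u ∈ S, ContDiff ℝ 1 u ∧ HasCompactSupport u)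
    (_ : Module.finrank ℂ S = k + 1),
    ⨅ (u : (Fin d → ℝ) → ℂ) (_ : u ∈ S) (_ : u ≠ 0),
      ((∫⁻ x, ENNReal.ofReal (-V x) * ‖u x‖ₑ ^ 2) -
        (energy A u + ∫⁻ x, ENNReal.ofReal (V x) * ‖u x‖ₑ ^ 2)) / ∫⁻ x, ‖u x‖ₑ ^ 2

/-- `A ∈ L²_loc(ℝᵈ; ℝᵈ)`. -/
def IsVectorPotential {d : ℕ} (A : (Fin d → ℝ) → (Fin d → ℝ)) : Prop :=
  Measurable A ∧ LocallyIntegrable fun x => ∑ j, (A x j) ^ 2

/-- Real potentials, locally integrable with `V_- ∈ L^{γ+d/2}`. -/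
def IsPotential {d : ℕ} (γ : ℝ) (V : (Fin d → ℝ) → ℝ) : Prop :=
  Measurable V ∧ LocallyIntegrable V ∧
    ∫⁻ x, ENNReal.ofReal (-V x) ^ (γ + (d : ℝ) / 2) ≠ ⊤

/-- The optimal magnetic Lieb-Thirring constant `L^mag_{γ,d}`. -/
noncomputable def Lmag (γ : ℝ) (d : ℕ) : ℝ≥0∞ :=
  sInf {C | ∀ (A : (Fin d → ℝ) → (Fin d → ℝ)) (V : (Fin d → ℝ) → ℝ),
    IsVectorPotential A → IsPotential γ V →
      ∑' k, absE A V k ^ γ ≤ C * ∫⁻ x, ENNReal.ofReal (-V x) ^ (γ + (d : ℝ) / 2)}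

/-- The optimal Lieb-Thirring constant `L_{γ,d}` (no magnetic field). -/
noncomputable def L (γ : ℝ) (d : ℕ) : ℝ≥0∞ :=
  sInf {C | ∀ V : (Fin d → ℝ) → ℝ, IsPotential γ V →
      ∑' k, absE 0 V k ^ γ ≤ C * ∫⁻ x, ENNReal.ofReal (-V x) ^ (γ + (d : ℝ) / 2)}

/-- The semiclassical constant `L^cl_{γ,d}`. -/
noncomputable def Lcl (γ : ℝ) (d : ℕ) : ℝ≥0∞ :=
  ENNReal.ofReal (Real.Gamma (γ + 1) /
    (2 ^ d * Real.pi ^ ((d : ℝ) / 2) * Real.Gamma (γ + 1 + (d : ℝ) / 2)))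

theorem absE_eq {d : ℕ} (A : (Fin d → ℝ) → (Fin d → ℝ)) (V : (Fin d → ℝ) → ℝ) (k : ℕ) :
    absE A V k = Helper766.M.negE Set.univ (-A) (fun x => ENNReal.ofReal (V x))
      (fun x => ENNReal.ofReal (-V x)) k := by
  have he : ∀ u : (Fin d → ℝ) → ℂ, energy A u = ∫⁻ x, Helper766.M.eT (-A) u x := by
    intro u
    unfold energy Helper766.M.eT
    refine lintegral_congr fun x => Finset.sum_congr rfl fun j _ => ?_
    have h1 : -Complex.I * fderiv ℝ u x (Pi.single j 1) + ((A x j : ℝ) : ℂ) * u x =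
        -Complex.I * (fderiv ℝ u x (Pi.single j 1) -
          Complex.I * (((-A) x j : ℝ) : ℂ) * u x) := by
      simp only [Pi.neg_apply, Complex.ofReal_neg]
      linear_combination (((A x j : ℝ) : ℂ) * u x) * Complex.I_sq
    rw [h1, enorm_mul]
    have h2 : ‖-Complex.I‖ₑ = 1 := by
      rw [enorm_neg, ← ofReal_norm, Complex.norm_I, ENNReal.ofReal_one]
    rw [h2, one_mul]
  have hd : ∀ S : Submodule ℂ ((Fin d → ℝ) → ℂ),
      (∀ u ∈ S, ContDiff ℝ 1 u ∧ HasCompactSupport u) ↔ Helper766.M.Dom Set.univ S := by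
    intro S
    unfold Helper766.M.Dom
    refine forall₂_congr fun u _ => ?_
    simp
  unfold absE Helper766.M.negE
  refine iSup_congr fun S => ?_
  refine iSup_congr_Prop (hd S) fun _ => ?_
  refine iSup_congr fun _ => ?_
  refine iInf_congr fun u => ?_
  rw [he u]

theorem Lcl_eq (γ : ℝ) (d : ℕ) : Lcl γ d = ENNReal.ofReal (Helper766.M.Lcl γ d) := by
  unfold Lcl Helper766.M.Lcl
  have h : (4 * Real.pi) ^ ((d : ℝ) / 2) = 2 ^ d * Real.pi ^ ((d : ℝ) / 2) := by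
    rw [Real.mul_rpow (by norm_num) Real.pi_pos.le]
    congr 1
    have h4 : (4 : ℝ) = 2 ^ (2 : ℝ) := by norm_num
    rw [h4, ← Real.rpow_mul (by norm_num), ← Real.rpow_natCast]
    congr 1
    ring
  rw [h]

theorem chain (d : ℕ) (hd : 1 ≤ d) (γ : ℝ) (hγ : 1 ≤ γ) :
    L γ d ≤ Lmag γ d ∧ Lmag γ d ≤ ENNReal.ofReal (2 / √3) * Lcl γ d ∧
      Lcl γ d ≤ L γ d := by
  have hexp : 0 < γ + (d : ℝ) / 2 := by positivity
  refine ⟨?_, ?_, ?_⟩
  · unfold L Lmag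
    refine sInf_le_sInf fun C hC V hV => hC 0 V ⟨measurable_const, ?_⟩ hV
    simpa using (locallyIntegrable_zero : LocallyIntegrable (fun _ : Fin d → ℝ => (0 : ℝ)) volume)
  · refine sInf_le ?_
    intro A V hA hV
    have h := Helper766.M.magnetic_LT hd Set.univ (-A) hA.1.neg
      (fun x => ENNReal.ofReal (V x)) (fun x => ENNReal.ofReal (-V x))
      (ENNReal.measurable_ofReal.comp hV.1.neg) hγ
    rw [Lcl_eq, ← ENNReal.ofReal_mul (by positivity)]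
    refine le_trans (le_of_eq ?_) h
    exact tsum_congr fun k => by rw [absE_eq]
  · refine le_sInf ?_
    intro C hC
    rw [Lcl_eq]
    refine Helper766.M.weyl_lower (by linarith) C fun W hW hWt hWi => ?_
    have h1 : ∀ x, ENNReal.ofReal (-(-(W x).toReal)) = W x := fun x => by
      rw [neg_neg, ENNReal.ofReal_toReal (hWt x)]
    have h2 : ∀ x, ENNReal.ofReal (-(W x).toReal) = 0 := fun x =>
      ENNReal.ofReal_of_nonpos (neg_nonpos.2 ENNReal.toReal_nonneg)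
    have hint : LocallyIntegrable (fun x => -(W x).toReal) := by
      have hq0 : ENNReal.ofReal (γ + (d : ℝ) / 2) ≠ 0 := by
        rw [Ne, ENNReal.ofReal_eq_zero, not_le]; exact hexp
      have hm : MemLp (fun x => -(W x).toReal) (ENNReal.ofReal (γ + (d : ℝ) / 2)) volume := by
        refine ⟨hW.ennreal_toReal.neg.aestronglyMeasurable, ?_⟩
        rw [eLpNorm_lt_top_iff_lintegral_rpow_enorm_lt_top hq0 ENNReal.ofReal_ne_top,
          ENNReal.toReal_ofReal hexp.le]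
        refine lt_of_le_of_lt (le_of_eq (lintegral_congr fun x => ?_)) (lt_top_iff_ne_top.2 hWi)
        rw [enorm_neg, ← ofReal_norm, Real.norm_of_nonneg ENNReal.toReal_nonneg,
          ENNReal.ofReal_toReal (hWt x)]
      refine hm.locallyIntegrable ?_
      rw [← ENNReal.ofReal_one]
      refine ENNReal.ofReal_le_ofReal ?_
      have : (0 : ℝ) ≤ (d : ℝ) / 2 := by positivity
      linarith
    have h3 := hC (fun x => -(W x).toReal) ⟨hW.ennreal_toReal.neg, hint, by simpa only [h1] using hWi⟩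
    simp only [h1] at h3
    refine le_trans (le_of_eq (tsum_congr fun k => ?_)) h3
    rw [absE_eq]
    simp only [h1, h2, neg_zero]
    rfl

/-- **Comparison of the magnetic and the non-magnetic Lieb-Thirring constants.** For every
dimension `d ≥ 1` and every `γ ≥ 1`,
`L_{γ,d} ≤ L^mag_{γ,d} ≤ (2/√3) L^cl_{γ,d} ≤ (2/√3) L_{γ,d}`. -/
theorem result (d : ℕ) (hd : 1 ≤ d) (γ : ℝ) (hγ : 1 ≤ γ) :
    L γ d ≤ Lmag γ d ∧ Lmag γ d ≤ ENNReal.ofReal (2 / √3) * Lcl γ d ∧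
      ENNReal.ofReal (2 / √3) * Lcl γ d ≤ ENNReal.ofReal (2 / √3) * L γ d :=
  ⟨(chain d hd γ hγ).1, (chain d hd γ hγ).2.1, mul_le_mul_right (chain d hd γ hγ).2.2 _⟩

end Pool.Agent.Results.MP_e22489_mp.MagneticRatio
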